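import Pool.Agent.SGL.StmtsA

set_option autoImplicit false

namespace Pool.Agent.SGL.H67

open Pool.Agent.SGL Pool.Agent.SGE Pool.Agent.SGP Pool.Agent.SGY Pool.Agent.SGD

theorem nts_rev {V : Type} {E : V → V → Prop} (sym : ∀ u v, E u v → E v u) {x y : V}
    (h : Relation.ReflTransGen E x y) : Relation.ReflTransGen E y x := by
  induction h with
  | refl => exact Relation.ReflTransGen.refl
  | tail _ h2 ih => exact Relation.ReflTransGen.head (sym _ _ h2) ih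

theorem nts (fcy : FcyStmt) (bn2 : Bn2Stmt) : NtsStmt := by
  intro V _ a b c E F N
  obtain ⟨hc, hba, hnba⟩ := bn2 N
  obtain ⟨hac, hnac⟩ := hc a c ⟨[], [b], rfl⟩
  obtain ⟨hcb, hncb⟩ := hc c b ⟨[a], [], rfl⟩
  have hne := N.nd
  simp only [List.nodup_cons, List.mem_cons, List.not_mem_nil, or_false, not_or,
    not_false_eq_true, List.nodup_nil, and_true] at hne
  obtain ⟨⟨hac', hab'⟩, hcb'⟩ := hne
  refine ⟨N.sym, N.irr, ?_, ?_, ?_, fcy N, ?_, ?_⟩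
  · intro u v w h
    rcases h with h | ⟨rfl, rfl, rfl⟩ | ⟨rfl, rfl, rfl⟩ | ⟨rfl, rfl, rfl⟩
    · exact Or.inl (N.rot _ _ _ h)
    · exact Or.inr (Or.inr (Or.inl ⟨rfl, rfl, rfl⟩))
    · exact Or.inr (Or.inr (Or.inr ⟨rfl, rfl, rfl⟩))
    · exact Or.inr (Or.inl ⟨rfl, rfl, rfl⟩)
  · intro u v w w' h h'
    rcases h with h | ⟨h1, h2, h3⟩ | ⟨h1, h2, h3⟩ | ⟨h1, h2, h3⟩ <;>
    rcases h' with h' | ⟨k1, k2, k3⟩ | ⟨k1, k2, k3⟩ | ⟨k1, k2, k3⟩
    · exact N.fn _ _ _ _ h h'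
    · subst k1 k2 k3; exact absurd h (hnac _)
    · subst k1 k2 k3; exact absurd h (hncb _)
    · subst k1 k2 k3; exact absurd h (hnba _)
    · subst h1 h2 h3; exact absurd h' (hnac _)
    · rw [h3, k3]
    · exact absurd (h1.symm.trans k1) hac'
    · exact absurd (h1.symm.trans k1) hab'
    · subst h1 h2 h3; exact absurd h' (hncb _)
    · exact absurd (h1.symm.trans k1).symm hac'
    · rw [h3, k3]
    · exact absurd (h1.symm.trans k1) hcb'
    · subst h1 h2 h3; exact absurd h' (hnba _)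
    · exact absurd (h1.symm.trans k1).symm hab'
    · exact absurd (h1.symm.trans k1).symm hcb'
    · rw [h3, k3]
  · intro u v w h
    rcases h with h | ⟨h1, h2, h3⟩ | ⟨h1, h2, h3⟩ | ⟨h1, h2, h3⟩
    · exact N.fe _ _ _ h
    · rw [h1, h2]; exact hac
    · rw [h1, h2]; exact hcb
    · rw [h1, h2]; exact hba
  · intro Z h1 h2 h3
    obtain ⟨A, hA, hA0, hAZ⟩ := N.hom Z h1 h2 h3
    refine ⟨A, ?_, hAZ⟩
    intro u v w h
    rcases h with h | ⟨h1, h2, h3⟩ | ⟨h1, h2, h3⟩ | ⟨h1, h2, h3⟩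
    · exact hA _ _ _ h
    · rw [h1, h2, h3, hA0 a c hnac, hA0 c b hncb]
    · rw [h1, h2, h3, hA0 c b hncb, hA0 b a hnba]
    · rw [h1, h2, h3, hA0 b a hnba, hA0 a c hnac]
  · intro u v x y huv hxy
    exact (nts_rev N.sym (N.con u v huv)).trans (N.con x y hxy)

end Pool.Agent.SGL.H67
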